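import Pool.Agent.H644R2.SIJ.Final

/-!
# The communication complexity of approximating the support size of a Boolean matrix product

`Rpub δ n ε` is the public-coin two-way communication complexity of `SIJ_{n,ε}` with error
probability `δ` when only Alice has to know the output, `Rpriv δ n ε` the private-coin one when
both players have to know it (definitions in `Pool/Agent/H644R2/SIJ/Defs.lean`).  Every usual
reading of `R_δ(SIJ_{n,ε})` lies between the two.  We determine both up to the factors
`exp (6 √(log (min (1/ε) n)))` (below) and `(1 + log n)^2` (above): they are `n · min (1/ε) n`.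

Lower bound: a Ruzsa-Szemeredi tripartite system (from a Behrend set in `ZMod q`) with `r` induced
matchings hides, in each of many independent blocks, a composition of a gap-Hamming-type problem
with set disjointness, whose squared bias has to be of order `min (1/ε, n)`; information theory by a
squared-bias chain rule, cut-and-paste, and a martingale/dual-basis argument.
Upper bound: Alice sends sketches of random unions of her rows, Bob answers with estimates of all
column supports and random columns drawn with probability proportional to the estimates.
-/

namespace Pool.Agent.Results.MP_fcebbb_lc.SupportComplexity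

open H644R2.SIJ

/-- **Main theorem.** For every constant error probability `0 < δ < 1/2` there are `c, C > 0` such
that for all `n ≥ 1` and all `0 < ε ≤ 1`, with `M = min (1/ε) n`,
`c n M exp (-6 √(log M)) ≤ Rpub δ n ε ≤ Rpriv δ n ε ≤ C n M (1 + log n)^2`. -/
theorem result (δ : ℝ) (hδ : 0 < δ) (hδ2 : δ < 1 / 2) :
    ∃ c C : ℝ, 0 < c ∧ 0 < C ∧ ∀ n : ℕ, 1 ≤ n → ∀ ε : ℝ, 0 < ε → ε ≤ 1 →
      c * (n * min (1 / ε) n * Real.exp (-6 * √(Real.log (min (1 / ε) n)))) ≤ Rpub δ n ε ∧
      Rpub δ n ε ≤ Rpriv δ n ε ∧
      (Rpriv δ n ε : ℝ) ≤ C * (n * min (1 / ε) n * (1 + Real.log n) ^ 2) :=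
  final hδ hδ2

end Pool.Agent.Results.MP_fcebbb_lc.SupportComplexity
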